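import Pool.Agent.helper76.MC.Defs

/-! # Project MC, module V: half of the principal series of `SL₂(𝔽_p)` -/

namespace Pool.Agent.helper76.MC

open Finset Pool.Agent.helper34.DH Pool.Agent.helper76.FV Pool.Agent.helper76.LP
open Pool.Agent.helper76.UR
open Matrix (SpecialLinearGroup)

section V
variable (p : ℕ) [Fact p.Prime]

/-- action on the plane from the right -/
def V_act (g : SpecialLinearGroup (Fin 2) (ZMod p)) (v : ZMod p × ZMod p) : ZMod p × ZMod p :=
  (v.1 * g.1 0 0 + v.2 * g.1 1 0, v.1 * g.1 0 1 + v.2 * g.1 1 1)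

theorem V_act_one (v : ZMod p × ZMod p) : V_act p 1 v = v := by
  simp [V_act]

theorem V_act_mul (g h : SpecialLinearGroup (Fin 2) (ZMod p)) (v : ZMod p × ZMod p) :
    V_act p (g * h) v = V_act p h (V_act p g v) := by
  have h1 : (g * h).1 = g.1 * h.1 := rfl
  simp only [V_act, h1, Matrix.mul_apply, Fin.sum_univ_two]
  ext
  · ring
  · ring

/-- the symplectic form -/
def V_om (v w : ZMod p × ZMod p) : ZMod p := v.1 * w.2 - v.2 * w.1

theorem V_om_act (g : SpecialLinearGroup (Fin 2) (ZMod p)) (v w : ZMod p × ZMod p) :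
    V_om p (V_act p g v) (V_act p g w) = V_om p v w := by
  have h := g.2
  rw [Matrix.det_fin_two] at h
  simp only [V_om, V_act]
  linear_combination (v.1 * w.2 - v.2 * w.1) * h

/-- the action on functions -/
def V_rep : Representation ℂ (SpecialLinearGroup (Fin 2) (ZMod p)) (ZMod p × ZMod p → ℂ) where
  toFun g :=
    { toFun := fun f v => f (V_act p g v)
      map_add' := fun _ _ => rfl
      map_smul' := fun _ _ => rfl }
  map_one' := by
    ext f v
    simp [V_act_one]
  map_mul' g h := by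
    refine LinearMap.ext fun f => ?_
    funext v
    simp [V_act_mul]

theorem V_rep_apply (g : SpecialLinearGroup (Fin 2) (ZMod p)) (f : ZMod p × ZMod p → ℂ)
    (v : ZMod p × ZMod p) : V_rep p g f v = f (V_act p g v) := rfl

/-- the quadratic character with complex values -/
noncomputable def V_chi : MulChar (ZMod p) ℂ :=
  (quadraticChar (ZMod p)).ringHomComp (Int.castRingHom ℂ)

/-- the symplectic Fourier transform -/
noncomputable def V_F : (ZMod p × ZMod p → ℂ) →ₗ[ℂ] (ZMod p × ZMod p → ℂ) where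
  toFun f w := (p : ℂ)⁻¹ * ∑ v, f v * ZMod.stdAddChar (V_om p v w)
  map_add' f g := by
    funext w
    simp only [Pi.add_apply, add_mul, Finset.sum_add_distrib, mul_add]
  map_smul' c f := by
    funext w
    simp only [Pi.smul_apply, smul_eq_mul, RingHom.id_apply, Finset.mul_sum]
    refine Finset.sum_congr rfl fun v _ => ?_
    ring

theorem V_F_apply (f : ZMod p × ZMod p → ℂ) (w : ZMod p × ZMod p) :
    V_F p f w = (p : ℂ)⁻¹ * ∑ v, f v * ZMod.stdAddChar (V_om p v w) := rfl

theorem V_F_rep (g : SpecialLinearGroup (Fin 2) (ZMod p)) (f : ZMod p × ZMod p → ℂ) :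
    V_F p (V_rep p g f) = V_rep p g (V_F p f) := by
  funext w
  rw [V_rep_apply, V_F_apply, V_F_apply]
  congr 1
  refine Finset.sum_bij' (fun v _ => V_act p g v) (fun v _ => V_act p g⁻¹ v) ?_ ?_ ?_ ?_ ?_
  · intro v _; exact Finset.mem_univ _
  · intro v _; exact Finset.mem_univ _
  · intro v _
    rw [← V_act_mul, mul_inv_cancel, V_act_one]
  · intro v _
    rw [← V_act_mul, inv_mul_cancel, V_act_one]
  · intro v _
    rw [V_rep_apply, V_om_act]

/-- half of the principal series -/
noncomputable def V_V : Submodule ℂ (ZMod p × ZMod p → ℂ) where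
  carrier := {f | (∀ a : ZMod p, a ≠ 0 → ∀ v : ZMod p × ZMod p,
    f (a * v.1, a * v.2) = V_chi p a * f v) ∧ V_F p f = f}
  add_mem' := by
    rintro f g ⟨h1, h2⟩ ⟨h3, h4⟩
    refine ⟨fun a ha v => ?_, ?_⟩
    · rw [Pi.add_apply, Pi.add_apply, h1 a ha, h3 a ha, mul_add]
    · rw [map_add, h2, h4]
  zero_mem' := by
    refine ⟨fun a ha v => ?_, ?_⟩
    · simp
    · rw [map_zero]
  smul_mem' := by
    rintro c f ⟨h1, h2⟩
    refine ⟨fun a ha v => ?_, ?_⟩
    · rw [Pi.smul_apply, Pi.smul_apply, h1 a ha, smul_eq_mul, smul_eq_mul]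
      ring
    · rw [map_smul, h2]

theorem V_mem (f : ZMod p × ZMod p → ℂ) : f ∈ V_V p ↔ (∀ a : ZMod p, a ≠ 0 →
    ∀ v : ZMod p × ZMod p, f (a * v.1, a * v.2) = V_chi p a * f v) ∧ V_F p f = f := Iff.rfl

theorem V_inv (g : SpecialLinearGroup (Fin 2) (ZMod p)) : V_V p ≤ (V_V p).comap (V_rep p g) := by
  intro f hf
  rw [Submodule.mem_comap, V_mem]
  rw [V_mem] at hf
  refine ⟨fun a ha v => ?_, ?_⟩
  · rw [V_rep_apply, V_rep_apply, ← hf.1 a ha]
    congr 1
    simp only [V_act]
    ext <;> simp <;> ring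
  · rw [V_F_rep, hf.2]

/-- the Gauss sum -/
noncomputable def V_G : ℂ := gaussSum (V_chi p) ZMod.stdAddChar

theorem V_chi_apply (a : ZMod p) : V_chi p a = ((quadraticChar (ZMod p) a : ℤ) : ℂ) := rfl

theorem V_chi_ne (hp : p ≠ 2) : V_chi p ≠ 1 := by
  intro h
  obtain ⟨a, ha⟩ := quadraticChar_exists_neg_one (F := ZMod p) (by rwa [ZMod.ringChar_zmod_n])
  have h1 : V_chi p a = 1 := by
    rw [h]
    have hu : IsUnit a := by
      by_contra hu
      have h2 := MulChar.map_nonunit (quadraticChar (ZMod p)) hu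
      rw [h2] at ha
      norm_num at ha
    exact MulChar.one_apply hu
  rw [V_chi_apply, ha] at h1
  norm_num at h1

theorem V_chi_sq (a : ZMod p) (ha : a ≠ 0) : V_chi p a * V_chi p a = 1 := by
  rw [V_chi_apply, ← Int.cast_mul, ← sq, quadraticChar_sq_one ha]
  simp

theorem V_quad : (V_chi p).IsQuadratic := by
  intro a
  rcases quadraticChar_isQuadratic (ZMod p) a with h | h | h
  · left; rw [V_chi_apply, h]; simp
  · right; left; rw [V_chi_apply, h]; simp
  · right; right; rw [V_chi_apply, h]; simp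

theorem V_G_sq (hp : p ≠ 2) : V_G p * V_G p = V_chi p (-1) * p := by
  have h := gaussSum_sq (V_chi_ne p hp) (V_quad p) (ZMod.isPrimitive_stdAddChar p)
  rw [ZMod.card] at h
  rw [← sq]
  exact h

theorem V_gauss (hp : p ≠ 2) (a : ZMod p) :
    ∑ y, V_chi p y * ZMod.stdAddChar (y * a) = V_chi p a * V_G p := by
  by_cases ha : a = 0
  · subst ha
    rw [MulChar.map_zero, zero_mul]
    have h := MulChar.sum_eq_zero_of_ne_one (V_chi_ne p hp)
    rw [← h]
    refine Finset.sum_congr rfl fun y _ => ?_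
    rw [mul_zero, AddChar.map_zero_eq_one, mul_one]
  · have h := gaussSum_mulShift (V_chi p) ZMod.stdAddChar (Units.mk0 a ha)
    rw [Units.val_mk0] at h
    have h2 : V_chi p a * (V_chi p a * gaussSum (V_chi p) (AddChar.mulShift ZMod.stdAddChar a)) =
      V_chi p a * V_G p := by rw [h]; rfl
    rw [← mul_assoc, V_chi_sq p a ha, one_mul] at h2
    rw [← h2, gaussSum]
    refine Finset.sum_congr rfl fun y _ => ?_
    rw [AddChar.mulShift_apply, mul_comm y a]

theorem V_orth (a : ZMod p) :
    ∑ y, (ZMod.stdAddChar (y * a) : ℂ) = if a = 0 then (p : ℂ) else 0 := by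
  have h := AddChar.sum_mulShift a (ZMod.isPrimitive_stdAddChar p)
  rw [ZMod.card] at h
  rw [h]
  split_ifs <;> simp

/-- the basis vectors -/
noncomputable def V_e (b : ZMod p) (v : ZMod p × ZMod p) : ℂ :=
  V_chi p v.1 * ZMod.stdAddChar (b * (v.2 / v.1)) +
    if v.1 = 0 ∧ b = 0 then V_G p * V_chi p v.2 else 0

theorem V_sum1 (hp : p ≠ 2) (b : ZMod p) (w : ZMod p × ZMod p) :
    ∑ v : ZMod p × ZMod p, (V_chi p v.1 * ZMod.stdAddChar (b * (v.2 / v.1))) *
      ZMod.stdAddChar (V_om p v w) =
      p * (V_chi p b * (V_chi p w.1 * ZMod.stdAddChar (b * (w.2 / w.1))) +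
        if w.1 = 0 ∧ b = 0 then V_G p * V_chi p w.2 else 0) := by
  rw [Fintype.sum_prod_type]
  have h1 : ∀ x : ZMod p, ∑ y : ZMod p, (V_chi p (x, y).1 *
      ZMod.stdAddChar (b * ((x, y).2 / (x, y).1))) * ZMod.stdAddChar (V_om p (x, y) w) =
      V_chi p x * ZMod.stdAddChar (x * w.2) * (if b / x - w.1 = 0 then (p : ℂ) else 0) := by
    intro x
    rw [← V_orth, Finset.mul_sum]
    refine Finset.sum_congr rfl fun y _ => ?_
    simp only [V_om]
    have h2 : (ZMod.stdAddChar (b * (y / x)) : ℂ) * ZMod.stdAddChar (x * w.2 - y * w.1) =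
        ZMod.stdAddChar (x * w.2) * ZMod.stdAddChar (y * (b / x - w.1)) := by
      rw [← AddChar.map_add_eq_mul, ← AddChar.map_add_eq_mul]
      congr 1
      ring
    rw [mul_assoc, h2, mul_assoc]
  rw [Finset.sum_congr rfl fun x _ => h1 x]
  by_cases hw : w.1 = 0
  · rw [hw, MulChar.map_zero, zero_mul, mul_zero, zero_add]
    by_cases hb : b = 0
    · subst hb
      simp only [zero_div, sub_zero, and_self, if_true]
      rw [← Finset.sum_mul, V_gauss p hp]
      ring
    · simp only [sub_zero, hb, and_false, if_false, mul_zero]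
      refine Finset.sum_eq_zero fun x _ => ?_
      by_cases hx : x = 0
      · rw [hx, MulChar.map_zero]; simp
      · rw [if_neg (div_ne_zero hb hx), mul_zero]
  · simp only [hw, false_and, if_false, add_zero]
    by_cases hb : b = 0
    · subst hb
      rw [MulChar.map_zero, zero_mul, mul_zero]
      refine Finset.sum_eq_zero fun x _ => ?_
      rw [if_neg, mul_zero]
      rw [zero_div, zero_sub, neg_eq_zero]
      exact hw
    · rw [Finset.sum_eq_single (b / w.1)]
      · rw [if_pos (by rw [div_div_cancel₀ hb, sub_self])]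
        have h3 : V_chi p (b / w.1) = V_chi p b * V_chi p w.1 := by
          have h4 := V_chi_sq p w.1 hw
          have h5 : V_chi p b = V_chi p (b / w.1) * V_chi p w.1 := by
            rw [← map_mul, div_mul_cancel₀ _ hw]
          rw [h5, mul_assoc, h4, mul_one]
        rw [h3, show b / w.1 * w.2 = b * (w.2 / w.1) by ring]
        ring
      · intro x _ hx
        by_cases hx0 : x = 0
        · rw [hx0, MulChar.map_zero]; simp
        · rw [if_neg, mul_zero]
          intro h
          apply hx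
          have h5 : b / x = w.1 := sub_eq_zero.1 h
          rw [← h5]
          field_simp
      · intro h; exact absurd (Finset.mem_univ _) h

theorem V_sum2 (hp : p ≠ 2) (b : ZMod p) (w : ZMod p × ZMod p) :
    ∑ v : ZMod p × ZMod p, (if v.1 = 0 ∧ b = 0 then V_G p * V_chi p v.2 else 0) *
      ZMod.stdAddChar (V_om p v w) = p * if b = 0 then V_chi p w.1 else 0 := by
  by_cases hb : b = 0
  · simp only [hb, and_true, if_true]
    rw [Fintype.sum_prod_type, Finset.sum_eq_single (0 : ZMod p)]
    · simp only [if_true, V_om]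
      have h1 : ∀ y : ZMod p, V_G p * V_chi p y * (ZMod.stdAddChar (0 * w.2 - y * w.1) : ℂ) =
          V_G p * (V_chi p y * ZMod.stdAddChar (y * (- w.1))) := by
        intro y
        rw [show 0 * w.2 - y * w.1 = y * (- w.1) by ring]
        ring
      rw [Finset.sum_congr rfl fun y _ => h1 y, ← Finset.mul_sum, V_gauss p hp,
        show V_G p * (V_chi p (-w.1) * V_G p) = V_chi p (-w.1) * (V_G p * V_G p) by ring,
        V_G_sq p hp, show - w.1 = (-1) * w.1 by ring, map_mul,
        show V_chi p (-1) * V_chi p w.1 * (V_chi p (-1) * p) =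
          (V_chi p (-1) * V_chi p (-1)) * (p * V_chi p w.1) by ring,
        V_chi_sq p (-1) (by simp), one_mul]
    · intro x _ hx
      simp [hx]
    · intro h; exact absurd (Finset.mem_univ _) h
  · simp [hb]

theorem V_e_mem (hp : p ≠ 2) (b : ZMod p) (hb : IsSquare b) : V_e p b ∈ V_V p := by
  have hp0 : (p : ℂ) ≠ 0 := by
    exact_mod_cast (Fact.out : p.Prime).ne_zero
  rw [V_mem]
  refine ⟨fun a ha v => ?_, ?_⟩
  · simp only [V_e]
    rw [mul_div_mul_left _ _ ha, map_mul (V_chi p), map_mul (V_chi p)]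
    by_cases h : v.1 = 0 ∧ b = 0
    · rw [if_pos h, if_pos (by rw [h.1]; simp [h.2])]
      ring
    · rw [if_neg h, if_neg]
      · ring
      · rintro ⟨h1, h2⟩
        exact h ⟨(mul_eq_zero.1 h1).resolve_left ha, h2⟩
  · funext w
    rw [V_F_apply]
    have h1 : ∀ v : ZMod p × ZMod p, V_e p b v * ZMod.stdAddChar (V_om p v w) =
        (V_chi p v.1 * ZMod.stdAddChar (b * (v.2 / v.1))) * ZMod.stdAddChar (V_om p v w) +
        (if v.1 = 0 ∧ b = 0 then V_G p * V_chi p v.2 else 0) *
          ZMod.stdAddChar (V_om p v w) := by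
      intro v
      rw [V_e, add_mul]
    rw [Finset.sum_congr rfl fun v _ => h1 v, Finset.sum_add_distrib, V_sum1 p hp, V_sum2 p hp,
      ← mul_add, inv_mul_cancel_left₀ hp0, V_e]
    by_cases hb0 : b = 0
    · subst hb0
      rw [MulChar.map_zero, zero_mul, zero_add, if_pos rfl, zero_mul, AddChar.map_zero_eq_one,
        mul_one, add_comm]
    · have h2 : V_chi p b = 1 := by
        rw [V_chi_apply, (quadraticChar_one_iff_isSquare hb0).2 hb]
        simp
      rw [h2, one_mul, if_neg hb0, add_zero]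

/-- coefficients -/
noncomputable def V_c (f : ZMod p × ZMod p → ℂ) (b : ZMod p) : ℂ :=
  (p : ℂ)⁻¹ * ∑ t, f (1, t) * ZMod.stdAddChar (-(b * t))

theorem V_inversion (f : ZMod p × ZMod p → ℂ) (t : ZMod p) :
    ∑ b, V_c p f b * ZMod.stdAddChar (b * t) = f (1, t) := by
  have hp0 : (p : ℂ) ≠ 0 := by
    exact_mod_cast (Fact.out : p.Prime).ne_zero
  simp only [V_c]
  have h1 : ∀ b : ZMod p, (p : ℂ)⁻¹ * (∑ s, f (1, s) * ZMod.stdAddChar (-(b * s))) *
      ZMod.stdAddChar (b * t) = ∑ s, (p : ℂ)⁻¹ * f (1, s) * ZMod.stdAddChar (b * (t - s)) := by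
    intro b
    rw [Finset.mul_sum, Finset.sum_mul]
    refine Finset.sum_congr rfl fun s _ => ?_
    rw [mul_assoc, mul_assoc, mul_assoc, ← AddChar.map_add_eq_mul]
    congr 4
    ring
  rw [Finset.sum_congr rfl fun b _ => h1 b, Finset.sum_comm]
  have h2 : ∀ s : ZMod p, ∑ b, (p : ℂ)⁻¹ * f (1, s) * ZMod.stdAddChar (b * (t - s)) =
      if s = t then f (1, t) else 0 := by
    intro s
    rw [← Finset.mul_sum, V_orth]
    by_cases h : s = t
    · subst h
      rw [sub_self, if_pos rfl, if_pos rfl]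
      field_simp
    · rw [if_neg h, if_neg, mul_zero]
      intro h3
      exact h (sub_eq_zero.1 h3).symm
  rw [Finset.sum_congr rfl fun s _ => h2 s, Finset.sum_ite_eq' Finset.univ t]
  simp

theorem V_hom_zero (hp : p ≠ 2) (f : ZMod p × ZMod p → ℂ) (hf : f ∈ V_V p) : f (0, 0) = 0 := by
  rw [V_mem] at hf
  obtain ⟨a, ha⟩ := quadraticChar_exists_neg_one (F := ZMod p) (by rwa [ZMod.ringChar_zmod_n])
  have ha0 : a ≠ 0 := by
    rintro rfl
    rw [MulChar.map_zero] at ha
    norm_num at ha
  have h := hf.1 a ha0 (0, 0)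
  simp only [mul_zero] at h
  rw [V_chi_apply, ha] at h
  push_cast at h
  linear_combination (1 / 2) * h

theorem V_hom_x (f : ZMod p × ZMod p → ℂ) (hf : f ∈ V_V p) (x y : ZMod p) (hx : x ≠ 0) :
    f (x, y) = V_chi p x * f (1, y / x) := by
  rw [V_mem] at hf
  rw [← hf.1 x hx (1, y / x)]
  congr 1
  ext
  · simp
  · simp only
    field_simp

theorem V_hom_y (hp : p ≠ 2) (f : ZMod p × ZMod p → ℂ) (hf : f ∈ V_V p) (y : ZMod p) :
    f (0, y) = V_chi p y * f (0, 1) := by
  by_cases hy : y = 0
  · subst hy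
    rw [V_hom_zero p hp f hf, MulChar.map_zero, zero_mul]
  · rw [V_mem] at hf
    rw [← hf.1 y hy (0, 1)]
    simp

theorem V_sum_y (f : ZMod p × ZMod p → ℂ) (hf : f ∈ V_V p) (x c : ZMod p) (hx : x ≠ 0) :
    ∑ y, f (x, y) * ZMod.stdAddChar (-(c * y)) =
      V_chi p x * ∑ t, f (1, t) * ZMod.stdAddChar (-(c * x * t)) := by
  rw [Finset.mul_sum]
  refine Finset.sum_bij' (fun y _ => y / x) (fun t _ => t * x) ?_ ?_ ?_ ?_ ?_
  · intro y _; exact Finset.mem_univ _
  · intro y _; exact Finset.mem_univ _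
  · intro y _
    field_simp
  · intro y _
    field_simp
  · intro y _
    rw [V_hom_x p f hf x y hx, mul_assoc]
    congr 3
    field_simp

theorem V_inf (hp : p ≠ 2) (f : ZMod p × ZMod p → ℂ) (hf : f ∈ V_V p) :
    f (0, 1) = V_G p * V_c p f 0 := by
  have hf2 := ((V_mem p f).1 hf).2
  have h1 : f (0, 1) = (p : ℂ)⁻¹ * ∑ v, f v * ZMod.stdAddChar (V_om p v (0, 1)) := by
    rw [← V_F_apply, hf2]
  rw [h1, Fintype.sum_prod_type]
  have h2 : ∀ x : ZMod p, ∑ y, f (x, y) * ZMod.stdAddChar (V_om p (x, y) (0, 1)) =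
      (V_chi p x * ZMod.stdAddChar x) * ∑ t, f (1, t) := by
    intro x
    have h3 : ∑ y, f (x, y) * ZMod.stdAddChar (V_om p (x, y) (0, 1)) =
        ZMod.stdAddChar x * ∑ y, f (x, y) * ZMod.stdAddChar (-(0 * y)) := by
      rw [Finset.mul_sum]
      refine Finset.sum_congr rfl fun y _ => ?_
      simp only [V_om, mul_one, mul_zero, sub_zero, zero_mul, neg_zero,
        AddChar.map_zero_eq_one]
      ring
    rw [h3]
    by_cases hx : x = 0
    · subst hx
      rw [MulChar.map_zero, zero_mul, zero_mul]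
      have h4 : ∑ y, f (0, y) * (ZMod.stdAddChar (-(0 * y)) : ℂ) =
          (∑ y, V_chi p y) * f (0, 1) := by
        rw [Finset.sum_mul]
        refine Finset.sum_congr rfl fun y _ => ?_
        rw [V_hom_y p hp f hf y, zero_mul, neg_zero, AddChar.map_zero_eq_one, mul_one]
      rw [h4, MulChar.sum_eq_zero_of_ne_one (V_chi_ne p hp), zero_mul, mul_zero]
    · rw [V_sum_y p f hf x 0 hx]
      simp only [zero_mul, neg_zero, AddChar.map_zero_eq_one, mul_one]
      ring
  rw [Finset.sum_congr rfl fun x _ => h2 x, ← Finset.sum_mul, V_c]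
  simp only [zero_mul, neg_zero, AddChar.map_zero_eq_one, mul_one]
  rw [V_G, gaussSum]
  ring

theorem V_c_nonsq (f : ZMod p × ZMod p → ℂ) (hf : f ∈ V_V p) (b : ZMod p)
    (hb : ¬ IsSquare b) : V_c p f b = 0 := by
  have hp0 : (p : ℂ) ≠ 0 := by
    exact_mod_cast (Fact.out : p.Prime).ne_zero
  have hb0 : b ≠ 0 := by
    rintro rfl
    exact hb (IsSquare.zero)
  have hf2 := ((V_mem p f).1 hf).2
  have h0 : V_c p f b = V_chi p b * V_c p f b := by
    have h1 : ∀ t : ZMod p, f (1, t) =
        (p : ℂ)⁻¹ * ∑ v, f v * ZMod.stdAddChar (V_om p v (1, t)) := by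
      intro t
      rw [← V_F_apply, hf2]
    have h2 : ∑ t, f (1, t) * ZMod.stdAddChar (-(b * t)) =
        ∑ y, f (b, y) * ZMod.stdAddChar (-(1 * y)) := by
      have h3 : ∀ t : ZMod p, f (1, t) * ZMod.stdAddChar (-(b * t)) =
          ∑ v : ZMod p × ZMod p, (p : ℂ)⁻¹ * (f v * ZMod.stdAddChar (- v.2)) *
            ZMod.stdAddChar (t * (v.1 - b)) := by
        intro t
        rw [h1 t, mul_assoc, Finset.sum_mul, Finset.mul_sum]
        refine Finset.sum_congr rfl fun v _ => ?_
        have e1 : (ZMod.stdAddChar (V_om p v (1, t)) : ℂ) * ZMod.stdAddChar (-(b * t)) =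
            ZMod.stdAddChar (- v.2) * ZMod.stdAddChar (t * (v.1 - b)) := by
          rw [← AddChar.map_add_eq_mul, ← AddChar.map_add_eq_mul]
          congr 1
          simp only [V_om]
          ring
        linear_combination ((p : ℂ)⁻¹ * f v) * e1
      rw [Finset.sum_congr rfl fun t _ => h3 t, Finset.sum_comm]
      have h4 : ∀ v : ZMod p × ZMod p, ∑ t, (p : ℂ)⁻¹ * (f v * ZMod.stdAddChar (- v.2)) *
            ZMod.stdAddChar (t * (v.1 - b)) =
          if v.1 = b then f v * ZMod.stdAddChar (- v.2) else 0 := by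
        intro v
        rw [← Finset.mul_sum, V_orth]
        by_cases h : v.1 = b
        · rw [if_pos h, if_pos (sub_eq_zero.2 h)]
          field_simp
        · rw [if_neg h, if_neg (fun h' => h (sub_eq_zero.1 h')), mul_zero]
      rw [Finset.sum_congr rfl fun v _ => h4 v, Fintype.sum_prod_type,
        Finset.sum_eq_single b]
      · simp
      · intro x _ hx
        simp [hx]
      · intro h; exact absurd (Finset.mem_univ _) h
    have e : ∑ t, f (1, t) * (ZMod.stdAddChar (-(b * t)) : ℂ) =
        V_chi p b * ∑ t, f (1, t) * ZMod.stdAddChar (-(b * t)) := by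
      conv_lhs => rw [h2, V_sum_y p f hf b 1 hb0]
      simp only [one_mul]
    unfold V_c
    linear_combination (p : ℂ)⁻¹ * e
  have h5 : V_chi p b = -1 := by
    have h6 : quadraticChar (ZMod p) b = -1 := by
      rcases quadraticChar_dichotomy hb0 with h | h
      · exact absurd ((quadraticChar_one_iff_isSquare hb0).1 h) hb
      · exact h
    rw [V_chi_apply, h6]
    simp
  rw [h5] at h0
  linear_combination (1 / 2) * h0

/-- squares -/
abbrev V_I := {b : ZMod p // IsSquare b}

/-- the basis vectors in the submodule -/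
noncomputable def V_v (hp : p ≠ 2) (b : V_I p) : V_V p := ⟨V_e p b.1, V_e_mem p hp b.1 b.2⟩

theorem V_e_one (b t : ZMod p) : V_e p b (1, t) = ZMod.stdAddChar (b * t) := by
  simp [V_e]

theorem V_indep (hp : p ≠ 2) : LinearIndependent ℂ (V_v p hp) := by
  classical
  have h0 : LinearIndependent ℂ (fun b : V_I p => fun t : ZMod p =>
      (ZMod.stdAddChar (b.1 * t) : ℂ)) := by
    rw [Fintype.linearIndependent_iff]
    intro g hg b
    have hp0 : (p : ℂ) ≠ 0 := by
      exact_mod_cast (Fact.out : p.Prime).ne_zero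
    have h1 : ∀ t : ZMod p, ∑ c : V_I p, g c * ZMod.stdAddChar (c.1 * t) = 0 := by
      intro t
      have := congrFun hg t
      simpa [Finset.sum_apply] using this
    have h2 : ∑ t : ZMod p, (∑ c : V_I p, g c * ZMod.stdAddChar (c.1 * t)) *
        ZMod.stdAddChar (-(b.1 * t)) = g b * p := by
      simp only [Finset.sum_mul]
      rw [Finset.sum_comm]
      have h3 : ∀ c : V_I p, ∑ t : ZMod p, g c * ZMod.stdAddChar (c.1 * t) *
          ZMod.stdAddChar (-(b.1 * t)) = if c = b then g b * p else 0 := by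
        intro c
        have h4 : ∀ t : ZMod p, g c * ZMod.stdAddChar (c.1 * t) *
            (ZMod.stdAddChar (-(b.1 * t)) : ℂ) = g c * ZMod.stdAddChar (t * (c.1 - b.1)) := by
          intro t
          rw [mul_assoc, ← AddChar.map_add_eq_mul]
          congr 2
          ring
        rw [Finset.sum_congr rfl fun t _ => h4 t, ← Finset.mul_sum, V_orth]
        by_cases h : c = b
        · subst h
          simp
        · rw [if_neg h, if_neg, mul_zero]
          intro h'
          exact h (Subtype.ext (sub_eq_zero.1 h'))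
      rw [Finset.sum_congr rfl fun c _ => h3 c, Finset.sum_ite_eq' Finset.univ b]
      simp
    have h5 : g b * p = 0 := by
      rw [← h2]
      refine Finset.sum_eq_zero fun t _ => ?_
      rw [h1 t, zero_mul]
    exact (mul_eq_zero.1 h5).resolve_right hp0
  let L : V_V p →ₗ[ℂ] (ZMod p → ℂ) :=
    { toFun := fun f t => f.1 (1, t)
      map_add' := fun _ _ => rfl
      map_smul' := fun _ _ => rfl }
  refine LinearIndependent.of_comp L ?_
  have h1 : (L ∘ V_v p hp) = fun b : V_I p => fun t : ZMod p =>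
      (ZMod.stdAddChar (b.1 * t) : ℂ) := by
    funext b t
    exact V_e_one p b.1 t
  rw [h1]
  exact h0

theorem V_span (hp : p ≠ 2) : ⊤ ≤ Submodule.span ℂ (Set.range (V_v p hp)) := by
  classical
  rintro ⟨f, hf⟩ -
  have key : ∀ v : ZMod p × ZMod p,
      ∑ b : V_I p, V_c p f b.1 * V_e p b.1 v = ∑ b : ZMod p, V_c p f b * V_e p b v := by
    intro v
    rw [← Finset.sum_subtype (Finset.univ.filter fun b : ZMod p => IsSquare b)
      (fun x => by simp) (fun b : ZMod p => V_c p f b * V_e p b v), Finset.sum_filter]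
    refine Finset.sum_congr rfl fun b _ => ?_
    split_ifs with h
    · rfl
    · rw [V_c_nonsq p f hf b h, zero_mul]
  have h1 : (⟨f, hf⟩ : V_V p) = ∑ b : V_I p, V_c p f b.1 • V_v p hp b := by
    refine Subtype.ext ?_
    rw [AddSubmonoidClass.coe_finsetSum]
    funext v
    rw [Finset.sum_apply]
    have h2 : ∀ b : V_I p, ((V_c p f b.1 • V_v p hp b : V_V p) : ZMod p × ZMod p → ℂ) v =
        V_c p f b.1 * V_e p b.1 v := fun b => rfl
    rw [Finset.sum_congr rfl fun b _ => h2 b, key v]
    show f v = _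
    obtain ⟨x, y⟩ := v
    by_cases hx : x = 0
    · subst hx
      rw [V_hom_y p hp f hf y, V_inf p hp f hf, Finset.sum_eq_single (0 : ZMod p)]
      · simp only [V_e, and_self, if_true, MulChar.map_zero]
        ring
      · intro b _ hb
        simp only [V_e, hb, and_false, if_false, MulChar.map_zero]
        ring
      · intro h; exact absurd (Finset.mem_univ _) h
    · rw [V_hom_x p f hf x y hx, ← V_inversion p f (y / x), Finset.mul_sum]
      refine Finset.sum_congr rfl fun b _ => ?_
      simp only [V_e, hx, false_and, if_false, add_zero]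
      ring
  rw [h1]
  refine Submodule.sum_mem _ fun b _ => Submodule.smul_mem _ _ ?_
  exact Submodule.subset_span ⟨b, rfl⟩

/-- `ez` on the points -/
theorem V_ez (b : ZMod p) : ez (pt b) = ZMod.stdAddChar b := by
  have h1 : ez (pt b) = Complex.exp (2 * Real.pi * Complex.I * (((b.val : ℚ) / p : ℚ) : ℂ)) := rfl
  have h2 := ZMod.stdAddChar_coe (N := p) (b.val : ℤ)
  have h3 : (((b.val : ℤ)) : ZMod p) = b := by
    rw [Int.cast_natCast, ZMod.natCast_zmod_val]
  rw [h3] at h2
  rw [h1, h2]
  congr 1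
  push_cast
  ring

theorem V_vp (x : ZMod p) : vp p p x = if IsSquare x then 1 else 0 := by
  have hp0 : 0 < p := (Fact.out : p.Prime).pos
  unfold vp
  rw [Nat.div_self hp0]
  by_cases hx : x = 0
  · subst hx
    rw [if_pos rfl, if_pos IsSquare.zero, Finset.filter_false_of_mem, Finset.card_empty]
    intro k hk
    rintro ⟨h1, -, h3⟩
    rw [mul_one, ZMod.natCast_eq_zero_iff] at h3
    exact absurd (Nat.le_of_dvd (Nat.pos_of_ne_zero h1) h3) (not_le.2 (Finset.mem_range.1 hk))
  · rw [if_neg hx, zero_add]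
    have key : ∀ k : ℕ, k ∈ Finset.range p → ((k * 1 : ℕ) : ZMod p) = x → k = x.val := by
      intro k hk h
      rw [mul_one] at h
      rw [← h, ZMod.val_natCast_of_lt (Finset.mem_range.1 hk)]
    split_ifs with h
    · rw [Finset.card_eq_one]
      refine ⟨x.val, ?_⟩
      ext k
      rw [Finset.mem_filter, Finset.mem_singleton]
      constructor
      · rintro ⟨h1, -, -, h2⟩
        exact key k h1 h2
      · rintro rfl
        refine ⟨Finset.mem_range.2 (ZMod.val_lt x), ?_, ?_, ?_⟩
        · rwa [Ne, ZMod.val_eq_zero]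
        · obtain ⟨r, hr⟩ := h
          refine ⟨r.val, Finset.mem_range.2 (ZMod.val_lt r), ?_⟩
          rw [hr, ZMod.val_mul]
        · rw [mul_one, ZMod.natCast_zmod_val]
    · rw [Finset.card_eq_zero, Finset.filter_eq_empty_iff]
      rintro k hk ⟨h1, ⟨c, hc, h2⟩, h3⟩
      apply h
      have h4 := key k hk h3
      refine ⟨(c : ZMod p), ?_⟩
      have h5 : ((k : ℕ) : ZMod p) = x := by rw [mul_one] at h3; exact h3
      rw [← h5, ← h2, ZMod.natCast_mod]
      push_cast
      rfl

theorem V_mset : mset (vp p p) = (Finset.univ : Finset (V_I p)).val.map fun b => pt b.1 := by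
  classical
  unfold mset
  have h1 : ∑ x : ZMod p, vp p p x • ({pt x} : Multiset QZ) =
      ∑ x ∈ Finset.univ.filter (fun b : ZMod p => IsSquare b), ({pt x} : Multiset QZ) := by
    rw [Finset.sum_filter]
    refine Finset.sum_congr rfl fun x _ => ?_
    rw [V_vp]
    split_ifs with h
    · rw [one_smul]
    · rw [zero_smul]
  rw [h1, Finset.sum_subtype (p := fun b : ZMod p => IsSquare b)
      (Finset.univ.filter fun b : ZMod p => IsSquare b)
      (fun x => by simp) (fun b : ZMod p => ({pt b} : Multiset QZ))]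
  show ((Finset.univ : Finset (V_I p)).val.map (fun b => ({pt b.1} : Multiset QZ))).sum = _
  rw [← Multiset.sum_map_singleton ((Finset.univ : Finset (V_I p)).val.map fun b => pt b.1),
    Multiset.map_map]
  rfl

theorem V_exps {V ι : Type} [AddCommGroup V] [Module ℂ V] [Fintype ι] (A : V →ₗ[ℂ] V)
    (b : Module.Basis ι ℂ V) (x : ι → QZ) (h : ∀ i, A (b i) = ez (x i) • b i) :
    Exps A ((Finset.univ : Finset ι).val.map x) := by
  classical
  refine ⟨Fintype.card ι, b.reindex (Fintype.equivFin ι), fun i => x ((Fintype.equivFin ι).symm i),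
    fun i => ?_, ?_⟩
  · rw [Module.Basis.reindex_apply]
    exact h _
  · have h1 : (Finset.univ : Finset ι) =
        (Finset.univ : Finset (Fin (Fintype.card ι))).map (Fintype.equivFin ι).symm.toEmbedding := by
      simp
    conv_lhs => rw [h1]
    rw [Finset.map_val, Multiset.map_map]
    rfl

end V

/-! ### the statement -/

theorem rep_vp (p : ℕ) [Fact p.Prime] (hp : p ≠ 2) :
    CongRep p ((quadraticChar (ZMod p) (-1) : ℤ) : ℂ) (mset (vp p p)) := by
  classical
  refine ⟨V_V p, inferInstance, inferInstance,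
    (V_rep p).subrepresentation (V_V p) (V_inv p), ?_, ?_⟩
  · refine LinearMap.ext fun f => ?_
    refine Subtype.ext ?_
    funext v
    show f.1 (V_act p (-1) v) = (V_chi p (-1)) * f.1 v
    rw [← ((V_mem p f.1).1 f.2).1 (-1) (by simp)]
    simp [V_act]
  · rw [V_mset]
    refine V_exps _ (Module.Basis.mk (V_indep p hp) (V_span p hp)) (fun b : V_I p => pt b.1) ?_
    intro b
    rw [Module.Basis.mk_apply]
    refine Subtype.ext ?_
    funext v
    show V_e p b.1 (V_act p (mT p) v) = ez (pt b.1) * V_e p b.1 v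
    rw [V_ez]
    obtain ⟨x, y⟩ := v
    have h1 : V_act p (mT p) (x, y) = (x, x + y) := by
      simp [V_act, mT]
    rw [h1]
    simp only [V_e]
    by_cases hx : x = 0
    · subst hx
      by_cases hb : b.1 = 0
      · rw [hb]; simp
      · simp [hb, MulChar.map_zero]
    · simp only [hx, false_and, if_false, add_zero]
      rw [show b.1 * ((x + y) / x) = b.1 + b.1 * (y / x) by field_simp, AddChar.map_add_eq_mul]
      ring

end Pool.Agent.helper76.MC
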